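import Pool.Agent.KS6_11.FaCliq.Main

/-!
ZFC refutes the forcing axiom for `ℵ₂` dense sets and proper `ℵ₁`-centered posets which consist
of all finite cliques of a graph with at most continuum many vertices, ordered by reverse inclusion.
-/

namespace Pool.Agent.Results.MP_880574_lc.FiniteCliques

open Cardinal Pool.Agent.helper943_FA Pool.Agent.KS6_11.FaCliq

/-- **ZFC refutes `FA_{ℵ₂}` for proper `ℵ₁`-centered posets of finite cliques**: there is a graph
with at most continuum many vertices whose finite cliques, ordered by reverse inclusion, form a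
proper `ℵ₁`-centered poset, and a family of `ℵ₂` dense subsets of that poset such that no filter,
and not even a set of pairwise compatible conditions, meets all of them; equivalently every clique
of the graph, finite or infinite, contains no member of one of the dense sets. -/
theorem result : ∃ (V : Type) (Γ : SimpleGraph V), #V ≤ 𝔠 ∧ Nonempty (CliquePoset Γ) ∧
    Aleph1Centered (CliquePoset Γ) ∧ Aleph2CC (CliquePoset Γ) ∧ IsProper (CliquePoset Γ) ∧
    (∀ F : Finset (CliquePoset Γ), (∀ p ∈ F, ∀ q ∈ F, Compat p q) →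
      ∃ r, IsGLB (F : Set (CliquePoset Γ)) r) ∧
    ∃ (ι : Type) (D : ι → Set (CliquePoset Γ)), #ι = ℵ_ 2 ∧ (∀ a, IsDenseSet (D a)) ∧
      (∀ G : Set (CliquePoset Γ), IsFilt G → ∃ a, G ∩ D a = ∅) ∧
      (∀ L : Set (CliquePoset Γ), (∀ p ∈ L, ∀ q ∈ L, Compat p q) → ∃ a, L ∩ D a = ∅) ∧
      ∀ K : Set V, Γ.IsClique K → ∃ a, ∀ p ∈ D a, ¬ (p.verts : Set V) ⊆ K := by
  classical
  by_contra hcon
  apply no_FA_clique
  intro V Γ hV hcen hP ι D hι hD
  by_contra hno
  apply hcon
  -- the statement for filters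
  have hfil : ∀ G : Set (CliquePoset Γ), IsFilt G → ∃ a, G ∩ D a = ∅ := by
    intro G hG
    by_contra hcon'
    push Not at hcon'
    exact hno ⟨G, hG, fun a => Set.nonempty_iff_ne_empty.2 (Set.nonempty_iff_ne_empty.1
      (hcon' a))⟩
  -- the statement for cliques
  have hcl : ∀ K : Set V, Γ.IsClique K → ∃ a, ∀ p ∈ D a, ¬ (p.verts : Set V) ⊆ K := by
    intro K hK
    have hKf : IsFilt {p : CliquePoset Γ | (p.verts : Set V) ⊆ K} := by
      refine ⟨⟨⟨∅, by simp⟩, by simp⟩, ?_, ?_⟩
      · intro p hp q hpq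
        exact (Finset.coe_subset.2 (cle_def.1 hpq)).trans hp
      · intro p hp q hq
        have hpq : ((p.verts ∪ q.verts : Finset V) : Set V) ⊆ K := by
          rw [Finset.coe_union]
          exact Set.union_subset hp hq
        exact ⟨⟨p.verts ∪ q.verts, hK.subset hpq⟩, hpq, Finset.subset_union_left,
          Finset.subset_union_right⟩
    obtain ⟨a, ha⟩ := hfil _ hKf
    refine ⟨a, fun p hp hpK => ?_⟩
    have : p ∈ {p : CliquePoset Γ | (p.verts : Set V) ⊆ K} ∩ D a := ⟨hpK, hp⟩
    rw [ha] at this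
    exact this
  have hadj : ∀ L : Set (CliquePoset Γ), (∀ p ∈ L, ∀ q ∈ L, Compat p q) →
      Γ.IsClique (⋃ p ∈ L, (p.verts : Set V)) := by
    intro L hL v hv w hw hvw
    simp only [Set.mem_iUnion] at hv hw
    obtain ⟨p, hp, hvp⟩ := hv
    obtain ⟨q, hq, hwq⟩ := hw
    obtain ⟨t, ht1, ht2⟩ := hL p hp q hq
    exact t.clique (Finset.coe_subset.2 (cle_def.1 ht1) hvp)
      (Finset.coe_subset.2 (cle_def.1 ht2) hwq) hvw
  refine ⟨V, Γ, hV, ⟨⟨∅, by simp⟩⟩, hcen, cc_of_centered _ hcen, hP, ?_,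
    ι ⊕ (ℵ_ 2).ord.ToType, fun a => match a with
    | .inl a => D a
    | .inr _ => Set.univ, ?_, ?_, ?_, ?_, ?_⟩
  · intro F hF
    refine ⟨⟨F.biUnion CliquePoset.verts, ?_⟩, ?_, ?_⟩
    · rw [Finset.coe_biUnion]
      exact hadj F hF
    · intro p hp
      exact Finset.subset_biUnion_of_mem CliquePoset.verts hp
    · intro r hr
      exact Finset.biUnion_subset.2 fun p hp => hr hp
  · rw [mk_sum]
    simp only [Cardinal.lift_id, mk_ord_toType]
    exact add_eq_right (aleph0_le_aleph 2) hι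
  · rintro (a | a)
    · exact hD a
    · exact fun p => ⟨p, trivial, le_rfl⟩
  · intro G hG
    obtain ⟨a, ha⟩ := hfil G hG
    exact ⟨.inl a, ha⟩
  · intro L hL
    obtain ⟨a, ha⟩ := hcl _ (hadj L hL)
    refine ⟨.inl a, ?_⟩
    ext p
    simp only [Set.mem_inter_iff, Set.mem_empty_iff_false, iff_false, not_and]
    intro hpL hpD
    exact ha p hpD (Set.subset_biUnion_of_mem (u := fun p : CliquePoset Γ => (p.verts : Set V)) hpL)
  · intro K hK
    obtain ⟨a, ha⟩ := hcl K hK
    exact ⟨.inl a, ha⟩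

end Pool.Agent.Results.MP_880574_lc.FiniteCliques
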